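import Pool.Agent.VM5.Stmts

/-!
# Module BL2: the bound of part II
-/

set_option autoImplicit false

namespace Pool.Agent.VM5.H5

open Pool.Agent.VM5
open Pool.Agent.Helper69_Weyl (ee)

theorem bnd_of_dvd {a : ℤ} {u : ℕ} (hu : 1 ≤ u) (h : a ∣ (u : ℤ)) :
    a ∈ Set.Icc (-(u : ℤ)) (u : ℤ) := by
  have hpos : (0 : ℤ) < (u : ℤ) := by exact_mod_cast hu
  constructor
  · have := Int.le_of_dvd hpos ((neg_dvd).2 h)
    linarith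
  · exact Int.le_of_dvd hpos h

theorem div_bound (dvb : DvbStmt) (δ : ℝ) (hδ : 0 < δ) : ∃ C : ℝ, 0 < C ∧ ∀ u : ℕ, 1 ≤ u →
    ((u.divisors.card : ℕ) : ℝ) ≤ C * (u : ℝ) ^ δ := by
  obtain ⟨C, hC, h⟩ := dvb δ hδ
  refine ⟨C, hC, fun u hu => ?_⟩
  have hu0 : u ≠ 0 := by omega
  have h1 := h (u : ℤ) (by exact_mod_cast hu0)
  have hfin : Finite {x : ℤ × ℤ × ℤ × ℤ // x.1 * x.2.1 * x.2.2.1 * x.2.2.2 = (u : ℤ)} := by
    have hs : {x : ℤ × ℤ × ℤ × ℤ | x.1 * x.2.1 * x.2.2.1 * x.2.2.2 = (u : ℤ)} ⊆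
        Set.Icc (-(u : ℤ)) (u : ℤ) ×ˢ Set.Icc (-(u : ℤ)) (u : ℤ) ×ˢ
          Set.Icc (-(u : ℤ)) (u : ℤ) ×ˢ Set.Icc (-(u : ℤ)) (u : ℤ) := by
      rintro ⟨a, b, c, e⟩ hx
      change a * b * c * e = (u : ℤ) at hx
      refine ⟨bnd_of_dvd hu ⟨b * c * e, ?_⟩, bnd_of_dvd hu ⟨a * c * e, ?_⟩,
        bnd_of_dvd hu ⟨a * b * e, ?_⟩, bnd_of_dvd hu ⟨a * b * c, ?_⟩⟩ <;> rw [← hx] <;> ring
    have hf := (((Set.finite_Icc (-(u : ℤ)) (u : ℤ)).prod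
      ((Set.finite_Icc (-(u : ℤ)) (u : ℤ)).prod ((Set.finite_Icc (-(u : ℤ)) (u : ℤ)).prod
        (Set.finite_Icc (-(u : ℤ)) (u : ℤ))))).subset hs)
    exact hf
  have h2 : u.divisors.card ≤
      Nat.card {x : ℤ × ℤ × ℤ × ℤ // x.1 * x.2.1 * x.2.2.1 * x.2.2.2 = (u : ℤ)} := by
    have h3 : Nat.card {g // g ∈ u.divisors} = u.divisors.card := by
      rw [Nat.card_eq_fintype_card, Fintype.card_coe]
    rw [← h3]
    refine Nat.card_le_card_of_injective (fun g => ⟨((g.1 : ℕ), ((u / g.1 : ℕ) : ℤ), 1, 1), ?_⟩) ?_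
    · have hg := Nat.mul_div_cancel' (Nat.dvd_of_mem_divisors g.2)
      show ((g.1 : ℕ) : ℤ) * ((u / g.1 : ℕ) : ℤ) * 1 * 1 = (u : ℤ)
      rw [mul_one, mul_one]
      exact_mod_cast hg
    · intro x y hxy
      have := congrArg (fun z => z.1.1) hxy
      simp only [Nat.cast_inj] at this
      exact Subtype.ext this
  calc ((u.divisors.card : ℕ) : ℝ) ≤ (Nat.card {x : ℤ × ℤ × ℤ × ℤ //
        x.1 * x.2.1 * x.2.2.1 * x.2.2.2 = (u : ℤ)} : ℝ) := by exact_mod_cast h2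
    _ ≤ C * |((u : ℤ) : ℝ)| ^ δ := h1
    _ = C * (u : ℝ) ^ δ := by
      rw [Int.cast_natCast, abs_of_nonneg (Nat.cast_nonneg u)]

theorem log_bound (δ : ℝ) (hδ : 0 < δ) : ∃ C : ℝ, 0 < C ∧ ∀ N : ℕ, 1 ≤ N →
    ((Nat.log 2 N + 1 : ℕ) : ℝ) ≤ C * (N : ℝ) ^ δ := by
  have hl2 : 0 < Real.log 2 := Real.log_pos (by norm_num)
  refine ⟨1 / (δ * Real.log 2) + 1, by positivity, fun N hN => ?_⟩
  have hN1 : (1 : ℝ) ≤ (N : ℝ) := by exact_mod_cast hN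
  have h1 : (Nat.log 2 N : ℝ) ≤ Real.log N / Real.log 2 := by
    rw [le_div_iff₀ hl2, ← Real.log_pow]
    apply Real.log_le_log (by positivity)
    exact_mod_cast Nat.pow_log_le_self 2 (by omega)
  have h2 : Real.log (N : ℝ) ≤ (N : ℝ) ^ δ / δ := Real.log_le_rpow_div (by positivity) hδ
  have h3 : (1 : ℝ) ≤ (N : ℝ) ^ δ := Real.one_le_rpow hN1 hδ.le
  push_cast
  have h4 : Real.log (N : ℝ) / Real.log 2 ≤ 1 / (δ * Real.log 2) * (N : ℝ) ^ δ := by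
    rw [div_le_iff₀ hl2]
    calc Real.log (N : ℝ) ≤ (N : ℝ) ^ δ / δ := h2
      _ = 1 / (δ * Real.log 2) * (N : ℝ) ^ δ * Real.log 2 := by
        field_simp
  nlinarith

/-- covering of `P2` by the classes -/
theorem cover (N u : ℕ) (S : Finset ℕ) (hu : 1 ≤ u) (X : ℕ × ℕ × ℤ → ℝ) (hX : ∀ p, 0 ≤ X p)
    (β : ℝ) (hβ : 0 ≤ β)
    (hc : ∀ H g, 1 ≤ g → g ≤ H → H ≤ N → ∑ p ∈ Cls N H g u S, X p ≤ β) :
    ∑ p ∈ P2 N S, X p ≤ ((Nat.log 2 N + 1 : ℕ) : ℝ) * ((u.divisors.card : ℕ) : ℝ) * β := by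
  classical
  set I := (Finset.range (Nat.log 2 N + 1)) ×ˢ u.divisors with hI
  have h1 : ∀ p ∈ P2 N S, X p ≤ ∑ c ∈ I, if (N / 2 ^ c.1 < 2 * p.1 ∧ p.1 ≤ N / 2 ^ c.1 ∧
      Nat.gcd p.1 u = c.2) then X p else 0 := by
    intro p hp
    have hp1 : 1 ≤ p.1 ∧ p.1 ≤ N := by
      have := (Finset.mem_product.1 hp).1
      exact Finset.mem_Icc.1 this
    have hN : 1 ≤ N := hp1.1.trans hp1.2
    set i := Nat.log 2 (N / p.1) with hi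
    have hq : N / p.1 ≠ 0 := by
      have := Nat.div_pos hp1.2 (by omega)
      omega
    have hi1 : 2 ^ i ≤ N / p.1 := Nat.pow_log_le_self 2 hq
    have hi2 : N / p.1 < 2 ^ (i + 1) := Nat.lt_pow_succ_log_self (by norm_num) _
    have ha : p.1 ≤ N / 2 ^ i := by
      rw [Nat.le_div_iff_mul_le (by positivity)]
      rw [Nat.le_div_iff_mul_le (by omega)] at hi1
      calc p.1 * 2 ^ i = 2 ^ i * p.1 := mul_comm _ _
        _ ≤ N := hi1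
    have hb : N / 2 ^ i < 2 * p.1 := by
      rw [Nat.div_lt_iff_lt_mul (by positivity)]
      rw [Nat.div_lt_iff_lt_mul (by omega)] at hi2
      calc N < 2 ^ (i + 1) * p.1 := hi2
        _ = 2 * p.1 * 2 ^ i := by ring
    have hmem : (i, Nat.gcd p.1 u) ∈ I := by
      rw [hI, Finset.mem_product]
      refine ⟨Finset.mem_range.2 ?_, ?_⟩
      · have : i ≤ Nat.log 2 N := Nat.log_mono_right (Nat.div_le_self _ _)
        show i < Nat.log 2 N + 1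
        omega
      · exact Nat.mem_divisors.2 ⟨Nat.gcd_dvd_right _ _, by omega⟩
    have h2 := Finset.single_le_sum (s := I) (f := fun c : ℕ × ℕ =>
      if (N / 2 ^ c.1 < 2 * p.1 ∧ p.1 ≤ N / 2 ^ c.1 ∧ Nat.gcd p.1 u = c.2) then X p else 0)
      (fun c _ => by
        show 0 ≤ (if (N / 2 ^ c.1 < 2 * p.1 ∧ p.1 ≤ N / 2 ^ c.1 ∧ Nat.gcd p.1 u = c.2)
          then X p else 0)
        split_ifs
        · exact hX p
        · exact le_rfl) hmem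
    have h3 : X p = (if (N / 2 ^ i < 2 * p.1 ∧ p.1 ≤ N / 2 ^ i ∧
        Nat.gcd p.1 u = Nat.gcd p.1 u) then X p else 0) := (if_pos ⟨hb, ha, rfl⟩).symm
    exact h3.le.trans h2
  calc ∑ p ∈ P2 N S, X p ≤ ∑ p ∈ P2 N S, ∑ c ∈ I,
        (if (N / 2 ^ c.1 < 2 * p.1 ∧ p.1 ≤ N / 2 ^ c.1 ∧ Nat.gcd p.1 u = c.2) then X p else 0) :=
        Finset.sum_le_sum h1
    _ = ∑ c ∈ I, ∑ p ∈ P2 N S,
        (if (N / 2 ^ c.1 < 2 * p.1 ∧ p.1 ≤ N / 2 ^ c.1 ∧ Nat.gcd p.1 u = c.2) then X p else 0) :=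
        Finset.sum_comm
    _ ≤ ∑ c ∈ I, β := by
        apply Finset.sum_le_sum
        intro c hc'
        rw [← Finset.sum_filter]
        by_cases hcc : 1 ≤ c.2 ∧ c.2 ≤ N / 2 ^ c.1
        · exact hc (N / 2 ^ c.1) c.2 hcc.1 hcc.2 (Nat.div_le_self _ _)
        · have hem : (P2 N S).filter (fun p => N / 2 ^ c.1 < 2 * p.1 ∧ p.1 ≤ N / 2 ^ c.1 ∧
              Nat.gcd p.1 u = c.2) = ∅ := by
            apply Finset.filter_eq_empty_iff.2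
            intro p hp hh
            apply hcc
            have hp1 : 1 ≤ p.1 := (Finset.mem_Icc.1 (Finset.mem_product.1 hp).1).1
            have hg : Nat.gcd p.1 u ≤ p.1 := Nat.le_of_dvd (by omega) (Nat.gcd_dvd_left _ _)
            have hg1 : 0 < Nat.gcd p.1 u := Nat.gcd_pos_of_pos_left _ (by omega)
            obtain ⟨_, h4, h5⟩ := hh
            omega
          rw [hem, Finset.sum_empty]
          exact hβ
    _ = ((Nat.log 2 N + 1 : ℕ) : ℝ) * ((u.divisors.card : ℕ) : ℝ) * β := by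
        rw [Finset.sum_const, hI, Finset.card_product, Finset.card_range, nsmul_eq_mul]
        push_cast
        ring

theorem bl2 (bcl : BclStmt) (av1 : Av1Stmt) (dvb : DvbStmt) : Bl2Stmt := by
  intro ε hε
  obtain ⟨C₁, hC₁, hB⟩ := bcl ε hε
  obtain ⟨Cd, hCd, hd⟩ := div_bound dvb (ε / 120) (by positivity)
  obtain ⟨Cl, hCl, hl⟩ := log_bound (ε / 40) (by positivity)
  refine ⟨2 ^ 19 * (1 + 2 ^ 20 * ((Cl * Cd) ^ 20 * C₁)), by positivity, ?_⟩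
  intro N D K u t ξ b S hP hS
  have hP' := hP
  obtain ⟨h4, h5, hD, _, _, _, hDK, hDu, _, _, hWD, hSS⟩ := hP'
  have hK : 1 ≤ K := by
    rcases Nat.eq_zero_or_pos K with h | h
    · rw [h] at hDK
      norm_num at hDK
      omega
    · exact h
  have hu : 1 ≤ u := by omega
  have hDKN : D * K ≤ N := by nlinarith
  have hDN : D ≤ N := by nlinarith
  have hKN : K ≤ N := by nlinarith
  have hN : 1 ≤ N := by omega
  have hNr : (1 : ℝ) ≤ (N : ℝ) := by exact_mod_cast hN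
  have hDr : (0 : ℝ) < (D : ℝ) := by exact_mod_cast (by omega : 0 < D)
  have hKr : (0 : ℝ) < (K : ℝ) := by exact_mod_cast (by omega : 0 < K)
  have hur : (0 : ℝ) < (u : ℝ) := by exact_mod_cast (by omega : 0 < u)
  have hNpos : (0 : ℝ) < (N : ℝ) := by linarith
  have hDNr : (D : ℝ) ≤ (N : ℝ) := by exact_mod_cast hDN
  have hKNr : (K : ℝ) ≤ (N : ℝ) := by exact_mod_cast hKN
  have hDKNr : (D : ℝ) * (K : ℝ) ≤ (N : ℝ) := by exact_mod_cast hDKN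
  have hsr : (0 : ℝ) < (S.card : ℝ) := lt_of_lt_of_le (Real.rpow_pos_of_pos hDr _) hS
  -- `u ≤ N ^ 3`
  have huN : (u : ℝ) ≤ (N : ℝ) ^ 3 := by
    have h1 : (u : ℝ) ≤ WW N u t b := le_max_left _ _
    have h2 : (D : ℝ) * (K : ℝ) ^ 3 ≤ (N : ℝ) ^ 3 := by
      calc (D : ℝ) * (K : ℝ) ^ 3 = ((D : ℝ) * (K : ℝ)) * (K : ℝ) ^ 2 := by ring
        _ ≤ (N : ℝ) * (N : ℝ) ^ 2 := by gcongr
        _ = (N : ℝ) ^ 3 := by ring
    linarith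
  -- the number of classes
  set m : ℝ := ((Nat.log 2 N + 1 : ℕ) : ℝ) * ((u.divisors.card : ℕ) : ℝ) with hm
  have hm0 : 0 ≤ m := by positivity
  have hmb : m ≤ Cl * Cd * (N : ℝ) ^ (ε / 20) := by
    have h1 := hl N hN
    have h2 := hd u hu
    have h3 : (u : ℝ) ^ (ε / 120) ≤ (N : ℝ) ^ (ε / 40) := by
      calc (u : ℝ) ^ (ε / 120) ≤ ((N : ℝ) ^ 3) ^ (ε / 120) :=
            Real.rpow_le_rpow hur.le huN (by positivity)
        _ = (N : ℝ) ^ (ε / 40) := by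
            rw [← Real.rpow_natCast, ← Real.rpow_mul hNpos.le]
            congr 1
            push_cast
            ring
    calc m ≤ (Cl * (N : ℝ) ^ (ε / 40)) * (Cd * (u : ℝ) ^ (ε / 120)) := by
          apply mul_le_mul h1 h2 (by positivity) (by positivity)
      _ ≤ (Cl * (N : ℝ) ^ (ε / 40)) * (Cd * (N : ℝ) ^ (ε / 40)) := by gcongr
      _ = Cl * Cd * ((N : ℝ) ^ (ε / 40) * (N : ℝ) ^ (ε / 40)) := by ring
      _ = Cl * Cd * (N : ℝ) ^ (ε / 20) := by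
          rw [← Real.rpow_add hNpos]
          congr 2
          ring
  have hm20 : m ^ 20 ≤ (Cl * Cd) ^ 20 * (N : ℝ) ^ ε := by
    calc m ^ 20 ≤ (Cl * Cd * (N : ℝ) ^ (ε / 20)) ^ 20 := pow_le_pow_left₀ hm0 hmb 20
      _ = (Cl * Cd) ^ 20 * ((N : ℝ) ^ (ε / 20)) ^ 20 := by ring
      _ = (Cl * Cd) ^ 20 * (N : ℝ) ^ ε := by
          congr 1
          rw [← Real.rpow_natCast, ← Real.rpow_mul hNpos.le]
          congr 1
          push_cast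
          ring
  -- the bound for one class
  set Q : ℝ := (1 + (N : ℝ) / (u : ℝ)) ^ 2 with hQ
  have hQ1 : 1 ≤ Q := by
    have : (0 : ℝ) ≤ (N : ℝ) / (u : ℝ) := by positivity
    rw [hQ]
    nlinarith
  set B : ℝ := C₁ * (K : ℝ) ^ 20 * (N : ℝ) ^ (38 + ε) * (S.card : ℝ) ^ 18 * (D : ℝ) * Q with hBd
  have hB0 : 0 ≤ B := by positivity
  set β : ℝ := B ^ ((1 : ℝ) / 20) with hβ
  have hβ0 : 0 ≤ β := Real.rpow_nonneg hB0 _
  have hβB : β ^ 20 = B := by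
    rw [hβ, ← Real.rpow_natCast, ← Real.rpow_mul hB0]
    norm_num
  obtain ⟨lo, hi, hlo, hhi, hA⟩ := av1 t ξ N K S hK (fun d hdS => by
    obtain ⟨ha, hb, _, _⟩ := hSS d hdS
    refine ⟨by omega, ?_⟩
    nlinarith)
  set X : ℕ × ℕ × ℤ → ℝ := fun p => ‖∑ m ∈ Finset.Icc (lo p) (hi p),
    ee (∑ j : Fin 4, t * (co2 j p : ℝ) * (m : ℝ) ^ ((j : ℕ) + 1))‖ with hX
  have hX0 : ∀ p, 0 ≤ X p := fun p => norm_nonneg _
  have hsum : ∑ p ∈ P2 N S, X p ≤ m * β := by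
    apply cover N u S hu X hX0 β hβ0
    intro H g hg hgH hHN
    have h1 := hB N D K u H g t b S lo hi hlo hhi hP hg hgH hHN
    have h2 : (∑ p ∈ Cls N H g u S, X p) ^ 20 ≤ β ^ 20 := by
      rw [hβB]
      exact h1
    exact le_of_pow_le_pow_left₀ (by norm_num) hβ0 h2
  have hA' : (S.card : ℝ) * (K : ℝ) * ‖WS t ξ N‖ ^ 2 ≤
      (S.card : ℝ) * (K : ℝ) * (N : ℝ) + 2 * (m * β) := by
    have : (S.card : ℝ) * (K : ℝ) * ‖WS t ξ N‖ ^ 2 ≤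
      (S.card : ℝ) * (K : ℝ) * (N : ℝ) + 2 * ∑ p ∈ P2 N S, X p := hA
    linarith
  have hsk : 0 < (S.card : ℝ) * (K : ℝ) := by positivity
  have hW2 : ‖WS t ξ N‖ ^ 2 ≤ (N : ℝ) + 2 * (m * β) / ((S.card : ℝ) * (K : ℝ)) := by
    rw [← sub_nonneg]
    have h1 : 0 ≤ ((S.card : ℝ) * (K : ℝ) * (N : ℝ) + 2 * (m * β) -
      (S.card : ℝ) * (K : ℝ) * ‖WS t ξ N‖ ^ 2) / ((S.card : ℝ) * (K : ℝ)) :=
      div_nonneg (by linarith) hsk.le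
    have h2 : ((S.card : ℝ) * (K : ℝ) * (N : ℝ) + 2 * (m * β) -
      (S.card : ℝ) * (K : ℝ) * ‖WS t ξ N‖ ^ 2) / ((S.card : ℝ) * (K : ℝ)) =
      (N : ℝ) + 2 * (m * β) / ((S.card : ℝ) * (K : ℝ)) - ‖WS t ξ N‖ ^ 2 := by
      field_simp
    rw [← h2]
    exact h1
  set E : ℝ := 2 * (m * β) / ((S.card : ℝ) * (K : ℝ)) with hE
  have hE0 : 0 ≤ E := by positivity
  have hW40 : ‖WS t ξ N‖ ^ 40 ≤ 2 ^ 19 * ((N : ℝ) ^ 20 + E ^ 20) := by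
    calc ‖WS t ξ N‖ ^ 40 = (‖WS t ξ N‖ ^ 2) ^ 20 := by ring
      _ ≤ ((N : ℝ) + E) ^ 20 := pow_le_pow_left₀ (by positivity) hW2 20
      _ ≤ 2 ^ (20 - 1) * ((N : ℝ) ^ 20 + E ^ 20) := add_pow_le hNpos.le hE0 20
  -- the second term
  have hE20 : E ^ 20 = 2 ^ 20 * (m ^ 20 * (C₁ * (N : ℝ) ^ (38 + ε) * Q) *
      ((D : ℝ) / (S.card : ℝ) ^ 2)) := by
    have h1 : E ^ 20 = 2 ^ 20 * (m ^ 20 * β ^ 20) / ((S.card : ℝ) ^ 20 * (K : ℝ) ^ 20) := by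
      rw [hE, div_pow, mul_pow (2 : ℝ) (m * β), mul_pow m β, mul_pow (S.card : ℝ) (K : ℝ)]
    rw [h1, hβB, hBd]
    have hK20 : (K : ℝ) ^ 20 ≠ 0 := by positivity
    have hs2 : (S.card : ℝ) ≠ 0 := hsr.ne'
    field_simp
  have hDs : (D : ℝ) / (S.card : ℝ) ^ 2 ≤ (N : ℝ) ^ (2 * ε) / (D : ℝ) := by
    rw [div_le_div_iff₀ (by positivity) hDr]
    have h1 : (D : ℝ) * (D : ℝ) = ((D : ℝ) ^ (1 - ε)) ^ 2 * (D : ℝ) ^ (2 * ε) := by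
      rw [← Real.rpow_natCast, ← Real.rpow_mul hDr.le, ← Real.rpow_add hDr]
      have : (1 - ε) * ((2 : ℕ) : ℝ) + 2 * ε = ((2 : ℕ) : ℝ) := by push_cast; ring
      rw [this, Real.rpow_natCast]
      ring
    rw [h1, mul_comm]
    have h2 : (D : ℝ) ^ (2 * ε) ≤ (N : ℝ) ^ (2 * ε) :=
      Real.rpow_le_rpow hDr.le hDNr (by positivity)
    have h3 : ((D : ℝ) ^ (1 - ε)) ^ 2 ≤ (S.card : ℝ) ^ 2 :=
      pow_le_pow_left₀ (Real.rpow_nonneg hDr.le _) hS 2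
    exact mul_le_mul h2 h3 (by positivity) (by positivity)
  have hpow : (N : ℝ) ^ ε * (N : ℝ) ^ (38 + ε) * (N : ℝ) ^ (2 * ε) = (N : ℝ) ^ (38 + 4 * ε) := by
    rw [← Real.rpow_add hNpos, ← Real.rpow_add hNpos]
    congr 1
    ring
  have hsecond : E ^ 20 ≤ 2 ^ 20 * ((Cl * Cd) ^ 20 * C₁) *
      ((N : ℝ) ^ (38 + 4 * ε) * Q / (D : ℝ)) := by
    rw [hE20]
    calc 2 ^ 20 * (m ^ 20 * (C₁ * (N : ℝ) ^ (38 + ε) * Q) * ((D : ℝ) / (S.card : ℝ) ^ 2)) ≤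
          2 ^ 20 * (((Cl * Cd) ^ 20 * (N : ℝ) ^ ε) * (C₁ * (N : ℝ) ^ (38 + ε) * Q) *
            ((N : ℝ) ^ (2 * ε) / (D : ℝ))) := by
          gcongr
      _ = 2 ^ 20 * ((Cl * Cd) ^ 20 * C₁) *
            (((N : ℝ) ^ ε * (N : ℝ) ^ (38 + ε) * (N : ℝ) ^ (2 * ε)) * Q / (D : ℝ)) := by
          ring
      _ = _ := by rw [hpow]
  have hfirst : (N : ℝ) ^ 20 ≤ (N : ℝ) ^ (38 + 4 * ε) * Q / (D : ℝ) := by
    rw [le_div_iff₀ hDr]
    have h1 : (N : ℝ) ^ 20 * (D : ℝ) ≤ (N : ℝ) ^ 21 := by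
      calc (N : ℝ) ^ 20 * (D : ℝ) ≤ (N : ℝ) ^ 20 * (N : ℝ) := by gcongr
        _ = (N : ℝ) ^ 21 := by ring
    have h2 : (N : ℝ) ^ 21 ≤ (N : ℝ) ^ (38 + 4 * ε) := by
      rw [← Real.rpow_natCast]
      apply Real.rpow_le_rpow_of_exponent_le hNr
      push_cast
      linarith
    have h3 : 0 ≤ (N : ℝ) ^ (38 + 4 * ε) := by positivity
    calc (N : ℝ) ^ 20 * (D : ℝ) ≤ (N : ℝ) ^ (38 + 4 * ε) := h1.trans h2
      _ = (N : ℝ) ^ (38 + 4 * ε) * 1 := (mul_one _).symm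
      _ ≤ (N : ℝ) ^ (38 + 4 * ε) * Q := by gcongr
  calc ‖WS t ξ N‖ ^ 40 ≤ 2 ^ 19 * ((N : ℝ) ^ 20 + E ^ 20) := hW40
    _ ≤ 2 ^ 19 * ((N : ℝ) ^ (38 + 4 * ε) * Q / (D : ℝ) + 2 ^ 20 * ((Cl * Cd) ^ 20 * C₁) *
      ((N : ℝ) ^ (38 + 4 * ε) * Q / (D : ℝ))) := by gcongr
    _ = 2 ^ 19 * (1 + 2 ^ 20 * ((Cl * Cd) ^ 20 * C₁)) * (N : ℝ) ^ (38 + 4 * ε) * Q / (D : ℝ) := by
      ring

end Pool.Agent.VM5.H5
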